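import Pool.Agent.P.MP_48d5fc_al.Final

namespace Pool.Agent.Results.MP_48d5fc_al.TorsionFree

open Pool.Agent.P.MP_48d5fc_al

/-- A pair `(1, f)` satisfying relations (I) and (II) whose endomorphism
`x ↦ x`, `y ↦ f⁻¹ y f` has finite order is the trivial pair. -/
theorem result (f : F2) (hf : f ∈ (commutator F2).topologicalClosure)
    (hI : ev gx gy f * ev gy gx f = 1) (hII : ev gz gx f * ev gy gz f * ev gx gy f = 1)
    (n : ℕ) (hn : 0 < n) (h : (ev gx (f⁻¹ * gy * f))^[n] = id) : f = 1 :=
  main hf hI hII n hn h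

end Pool.Agent.Results.MP_48d5fc_al.TorsionFree
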